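import Pool.Agent.J4H63.KS.Stm

/-!
# Assembly of the sparsification lemma
-/

set_option autoImplicit false

open Finset Pool.Agent.J4H64.SS Pool.Agent.J4H95.SP Pool.Agent.J4H63.KS

namespace Pool.Agent.J4H79.KS

/-- the true literals -/
def Tr {n : ℕ} (a : Fin n → Bool) : Finset (Fin n × Bool) := univ.filter (fun l => a l.1 = l.2)

lemma mem_Tr {n : ℕ} (a : Fin n → Bool) (l : Fin n × Bool) : l ∈ Tr a ↔ a l.1 = l.2 := by
  simp [Tr]

lemma hyk_card {k n : ℕ} (x : ClK k n → Bool) : ∀ e, HyK x e → e.card ≤ k := fun _ h => h.1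

lemma Sf_iff {k n : ℕ} (b : ℕ → ℕ → ℕ)
    (A : Fin (k + 1) × Fin (k + 1) × Fin 3 → Finset (Fin n × Bool)) (x : ClK k n → Bool)
    (q : ClK k n) : Sf b A x q = true ↔ Ps b (ext k A) k (HyK x) q.1 := by
  simp [Sf]

theorem t_SPLA : S_SPLA := by
  intro hS hC hD hP hA hN
  intro k ε hε
  obtain ⟨q, hq, hq2⟩ := hN k ε hε
  obtain ⟨b, hb⟩ := hP k q hq
  obtain ⟨B, hB⟩ := hD k b
  obtain ⟨K, d₀, hK⟩ := hA k b
  refine ⟨B, K, d₀, fun n hn => ?_⟩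
  refine ⟨{A : Fin (k + 1) × Fin (k + 1) × Fin 3 → Finset (Fin n × Bool) //
    ∀ c, q * (A c).card ≤ Fintype.card (Fin n × Bool)}, inferInstance,
    fun A x => Sf b A.1 x, hq2 n hn, ⟨⟨fun _ => ∅, fun _ => by simp⟩⟩,
    fun A q => hK n hn A.1 q, ?_, ?_⟩
  · intro A x l
    rw [← Finset.card_image_of_injective _ (Subtype.val_injective (p := fun c : Finset (Fin n × Bool) => c.card ≤ k))]
    apply hB (Fin n × Bool) (ext k A.1) (HyK x) (hyk_card x) l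
    intro e he
    rw [Finset.mem_image] at he
    obtain ⟨c, hc, rfl⟩ := he
    rw [Finset.mem_filter] at hc
    exact ⟨(Sf_iff b A.1 x c).1 hc.2.1, hc.2.2⟩
  · intro x a
    constructor
    · intro h
      have h1 : Hits (Tr a) (HyK x) := by
        intro e he
        obtain ⟨h2, h3⟩ := he
        obtain ⟨l, hl, hl2⟩ := h ⟨e, h2⟩ h3
        exact ⟨l, hl, (mem_Tr a l).2 hl2⟩
      obtain ⟨A, hA1, hA2⟩ := hb (Fin n × Bool) (HyK x) (Tr a) (hyk_card x) h1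
      refine ⟨⟨A, hA1⟩, fun c hc => ?_⟩
      obtain ⟨l, hl, hl2⟩ := hA2 c.1 ((Sf_iff b A x c).1 hc)
      exact ⟨l, hl, (mem_Tr a l).1 hl2⟩
    · rintro ⟨A, hA1⟩ c hc
      have h1 : Hits (Tr a) (Ps b (ext k A.1) k (HyK x)) := by
        intro e he
        have h2 := hC (Fin n × Bool) b (ext k A.1) k (HyK x) (hyk_card x) e he
        obtain ⟨l, hl, hl2⟩ := hA1 ⟨e, h2⟩ ((Sf_iff b A.1 x ⟨e, h2⟩).2 he)
        exact ⟨l, hl, (mem_Tr a l).2 hl2⟩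
      have h3 := hS (Fin n × Bool) b (ext k A.1) k (HyK x) (hyk_card x) (Tr a) h1
      obtain ⟨l, hl, hl2⟩ := h3 c.1 ⟨c.2, hc⟩
      exact ⟨l, hl, (mem_Tr a l).1 hl2⟩

end Pool.Agent.J4H79.KS
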