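import Pool.Agent.J4H63.KS.Stm
import Pool.Agent.J4H95.SP.T4

/-!
# From 3-CNF to k-CNF
-/

set_option autoImplicit false

open Finset Pool.Agent.J4H64.SS Pool.Agent.J4H95.SP Pool.Agent.J4H63.KS

namespace Pool.Agent.J4H79.KS

/-- a set of clauses with three literals as a set of clauses with `k` literals -/
def Fk {k n : ℕ} (x : Cl n → Bool) (c : ClK k n) : Bool :=
  if h : c.1.card ≤ 3 then x ⟨c.1, h⟩ else false

lemma Fk_AC {k n : ℕ} (c : ClK k n) : AC 2 1 (fun x : Cl n → Bool => Fk x c = true) := by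
  by_cases h : c.1.card ≤ 3
  · have : (fun x : Cl n → Bool => Fk x c = true) = fun x => x ⟨c.1, h⟩ = true := by
      funext x
      simp only [Fk, dif_pos h]
    rw [this]
    exact AC.inp 1 _
  · have : (fun x : Cl n → Bool => Fk x c = true) = fun x => ∃ j : Fin 0,
        (fun (j : Fin 0) (_ : Cl n → Bool) => j.elim0) j x := by
      funext x
      simp only [Fk, dif_neg h, Bool.false_eq_true, eq_iff_iff, false_iff]
      rintro ⟨j, _⟩
      exact j.elim0
    rw [this]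
    exact AC.ex _ (by omega) (fun j => j.elim0)

lemma Fk_sat {k n : ℕ} (hk : 3 ≤ k) (x : Cl n → Bool) : SatK (k := k) (Fk x) ↔ Sat x := by
  constructor
  · rintro ⟨a, ha⟩
    refine ⟨a, fun c hc => ?_⟩
    apply ha ⟨c.1, c.2.trans hk⟩
    simp only [Fk]
    rw [dif_pos c.2]
    exact hc
  · rintro ⟨a, ha⟩
    refine ⟨a, fun c hc => ?_⟩
    by_cases h : c.1.card ≤ 3
    · simp only [Fk, dif_pos h] at hc
      exact ha ⟨c.1, h⟩ hc
    · simp only [Fk, dif_neg h] at hc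
      exact absurd hc Bool.false_ne_true

theorem t_HKB : S_HKB := by
  classical
  intro _ k hk
  rintro ⟨δ, hδ, hS⟩
  refine ⟨δ / 2, by positivity, fun d N₀ => ?_⟩
  obtain ⟨n, hn, hn1, hno⟩ := hS (d + (1 + 1)) (max N₀ ⌈6 / δ⌉₊)
  have hnδ : 6 / δ ≤ n := by
    have h1 : ⌈6 / δ⌉₊ ≤ n := (le_max_right _ _).trans hn
    exact (Nat.le_ceil _).trans (by exact_mod_cast h1)
  refine ⟨n, (le_max_left _ _).trans hn, hn1, ?_⟩
  rintro ⟨C, hwf, hd, hsize, hacc⟩
  refine hno ?_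
  have hne : Nonempty (Cl n) := ⟨⟨∅, by simp⟩⟩
  obtain ⟨C', g1, g2, g3, g4⟩ := t_SUB (Cl n) (ClK k n) 2 d 1 C le_rfl hwf hd
    (fun x c => Fk x c) (fun c => Fk_AC c)
  refine ⟨C', g1, g2, ?_, fun x => ?_⟩
  · set Y : ℝ := (2 : ℝ) ^ (δ / 2 * (n : ℝ)) with hY
    have hY5 : 5 ≤ Y := by
      have h1 : (3 : ℝ) ≤ δ / 2 * n := by
        rw [div_le_iff₀ hδ] at hnδ
        linarith
      calc (5 : ℝ) ≤ (2 : ℝ) ^ (3 : ℝ) := by norm_num
        _ ≤ Y := Real.rpow_le_rpow_of_exponent_le (by norm_num) h1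
    have hYY : (2 : ℝ) ^ (δ * (n : ℝ)) = Y * Y := by
      rw [hY, ← Real.rpow_add (by norm_num)]
      congr 1
      ring
    have hcard : Fintype.card (Cl n) ≤ Fintype.card (ClK k n) := by
      apply Fintype.card_le_of_injective (fun c : Cl n => (⟨c.1, c.2.trans hk⟩ : ClK k n))
      intro a b hab
      exact Subtype.ext (congrArg (fun c : ClK k n => c.1) hab)
    have hcard' : (Fintype.card (Cl n) : ℝ) ≤ (Fintype.card (ClK k n) : ℝ) := by
      exact_mod_cast hcard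
    have g3' : (C'.m : ℝ) ≤ (C.m : ℝ) + (Fintype.card (ClK k n) : ℝ) * 4 := by
      have : C'.m ≤ C.m + Fintype.card (ClK k n) * 4 := by simpa using g3
      exact_mod_cast this
    have hCm : (0 : ℝ) ≤ C.m := Nat.cast_nonneg _
    rw [hYY]
    calc (Fintype.card (Cl n) : ℝ) + (C'.m : ℝ)
        ≤ 5 * ((Fintype.card (ClK k n) : ℝ) + (C.m : ℝ)) := by linarith
      _ ≤ 5 * Y := by linarith
      _ ≤ Y * Y := by
        apply mul_le_mul_of_nonneg_right hY5
        linarith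
  · rw [g4, hacc]
    exact Fk_sat hk x

end Pool.Agent.J4H79.KS
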